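import Pool.Agent.J4H20.TR.Stm

/-!
# Project TR2, piece (T1): prescribed residue symbols
-/

set_option autoImplicit false

namespace Pool.Agent.J4H30.TR

open Pool.Agent.J4H20.TR NumberTheorySymbols

theorem exists_primes (k B : ℕ) :
    ∃ p : Fin k → ℕ, Function.Injective p ∧ ∀ j, (p j).Prime ∧ B < p j := by
  have hS : {p : ℕ | p.Prime ∧ B < p}.Infinite := by
    apply Set.infinite_of_forall_exists_gt
    intro n
    obtain ⟨p, hp, hpp⟩ := Nat.exists_infinite_primes (n + B + 1)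
    exact ⟨p, ⟨hpp, by omega⟩, by omega⟩
  refine ⟨fun j => (hS.natEmbedding _ (j : ℕ) : ℕ), fun i j h => ?_,
    fun j => (hS.natEmbedding _ (j : ℕ)).2⟩
  exact Fin.ext ((hS.natEmbedding _).injective (Subtype.ext h))

theorem exists_x (k : ℕ) (a : Fin k → ℤ) (p : Fin k → ℕ) (hinj : Function.Injective p)
    (hp : ∀ j, (p j).Prime) (X₀ : ℤ) :
    ∃ x : ℤ, X₀ < x ∧ (∀ j, a j < x) ∧ ∀ j, (p j : ℤ) ^ 2 ∣ x - (a j + p j) := by
  obtain ⟨r, hr⟩ := Ideal.exists_forall_sub_mem_ideal
    (I := fun j => Ideal.span {(p j : ℤ) ^ 2}) (by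
      intro i j hij
      change IsCoprime (Ideal.span {(p i : ℤ) ^ 2}) (Ideal.span {(p j : ℤ) ^ 2})
      rw [Ideal.isCoprime_span_singleton_iff]
      exact IsCoprime.pow (Nat.isCoprime_iff_coprime.mpr
        ((Nat.coprime_primes (hp i) (hp j)).mpr (hinj.ne hij)))) (fun j => a j + p j)
  set Q : ℤ := ∏ j, (p j : ℤ) ^ 2 with hQ
  have hQ1 : 1 ≤ Q := by
    have : 0 < Q := Finset.prod_pos fun j _ => by
      have := (hp j).pos
      positivity
    omega
  set T : ℤ := |r| + |X₀| + ∑ j, |a j| + 1 with hT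
  have hsum : 0 ≤ ∑ j, |a j| := Finset.sum_nonneg fun j _ => abs_nonneg _
  have hT0 : 0 ≤ T := by
    have := abs_nonneg r
    have := abs_nonneg X₀
    omega
  have hbig : r + |X₀| + ∑ j, |a j| + |r| + 1 ≤ r + Q * T := by
    nlinarith
  have hr1 := neg_abs_le r
  refine ⟨r + Q * T, ?_, fun j => ?_, fun j => ?_⟩
  · have := le_abs_self X₀
    omega
  · have h1 : |a j| ≤ ∑ j, |a j| :=
      Finset.single_le_sum (f := fun j => |a j|) (fun j _ => abs_nonneg _) (Finset.mem_univ j)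
    have := le_abs_self (a j)
    have := abs_nonneg X₀
    omega
  · have h1 : (p j : ℤ) ^ 2 ∣ r - (a j + p j) :=
      Ideal.mem_span_singleton.mp (hr j)
    have h2 : (p j : ℤ) ^ 2 ∣ Q := Finset.dvd_prod_of_mem (fun j => (p j : ℤ) ^ 2) (Finset.mem_univ j)
    have h3 : r + Q * T - (a j + p j) = (r - (a j + p j)) + Q * T := by ring
    rw [h3]
    exact dvd_add h1 (h2.mul_right _)

/-- the prime `q` -/
theorem exists_q (k : ℕ) (p : Fin k → ℕ) (hinj : Function.Injective p) (hp : ∀ j, (p j).Prime)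
    (hp2 : ∀ j, 2 < p j) (J : Finset (Fin k)) (m : ℕ) (hm : 0 < m) (hpm : ∀ j, ¬ p j ∣ m)
    (B : ℕ) : ∃ q : ℕ, q.Prime ∧ B < q ∧ q ≡ 1 [MOD (4 * m)] ∧
      ∀ j, ∃ u : ℕ, q ≡ u [MOD (p j)] ∧ (u : ZMod (p j)) ≠ 0 ∧
        (IsSquare (u : ZMod (p j)) ↔ j ∉ J) := by
  have hu : ∀ j, ∃ u : ℕ, (u : ZMod (p j)) ≠ 0 ∧ (IsSquare (u : ZMod (p j)) ↔ j ∉ J) := by
    intro j
    haveI : Fact (p j).Prime := ⟨hp j⟩
    by_cases hj : j ∈ J
    · obtain ⟨a, ha⟩ := FiniteField.exists_nonsquare (F := ZMod (p j)) (by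
        rw [ZMod.ringChar_zmod_n]
        have := hp2 j
        omega)
      refine ⟨a.val, ?_, ?_⟩
      · rw [ZMod.natCast_zmod_val]
        rintro rfl
        exact ha (IsSquare.zero)
      · rw [ZMod.natCast_zmod_val]
        exact ⟨fun h => absurd h ha, fun h => absurd hj h⟩
    · refine ⟨1, by simp, ?_⟩
      simp [hj]
  choose u hu0 hu using hu
  have hco : Set.Pairwise ((Finset.univ : Finset (Option (Fin k))) : Set (Option (Fin k)))
      (Function.onFun Nat.Coprime (fun o : Option (Fin k) => o.elim (4 * m) p)) := by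
    have key : ∀ j, Nat.Coprime (4 * m) (p j) := by
      intro j
      refine Nat.Coprime.symm ((Nat.Prime.coprime_iff_not_dvd (hp j)).mpr fun h => ?_)
      rcases (Nat.Prime.dvd_mul (hp j)).mp h with h | h
      · have h4 : p j ∣ 2 ^ 2 := by simpa using h
        have := Nat.le_of_dvd (by norm_num) ((hp j).dvd_of_dvd_pow h4)
        have := hp2 j
        omega
      · exact hpm j h
    rintro (_ | i) _ (_ | j) _ hij
    · exact absurd rfl hij
    · exact key j
    · exact (key i).symm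
    · exact (Nat.coprime_primes (hp i) (hp j)).mpr (hinj.ne fun h => hij (by rw [h]))
  obtain ⟨c, hc⟩ := Nat.chineseRemainderOfFinset (fun o : Option (Fin k) => o.elim 1 u)
    (fun o : Option (Fin k) => o.elim (4 * m) p) Finset.univ (by
      rintro (_ | j) _
      · simp; omega
      · exact (hp j).ne_zero) hco
  have hc1 : c ≡ 1 [MOD (4 * m)] := hc none (Finset.mem_univ _)
  have hc2 : ∀ j, c ≡ u j [MOD (p j)] := fun j => hc (some j) (Finset.mem_univ _)
  set W : ℕ := 4 * m * ∏ j, p j with hW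
  have hWpos : 0 < W := Nat.mul_pos (by omega) (Finset.prod_pos fun j _ => (hp j).pos)
  haveI : NeZero W := ⟨hWpos.ne'⟩
  have hcop : Nat.Coprime c W := by
    refine Nat.Coprime.mul_right ?_ (Nat.Coprime.prod_right fun j _ => ?_)
    · have := hc1.gcd_eq
      simpa [Nat.Coprime] using this
    · haveI : Fact (p j).Prime := ⟨hp j⟩
      refine Nat.Coprime.symm ((Nat.Prime.coprime_iff_not_dvd (hp j)).mpr fun h => ?_)
      apply hu0 j
      rw [← (ZMod.natCast_eq_natCast_iff _ _ _).mpr (hc2 j)]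
      exact (ZMod.natCast_eq_zero_iff _ _).mpr h
  obtain ⟨q, hqB, hqp, hq⟩ := Nat.forall_exists_prime_gt_and_eq_mod
    ((ZMod.isUnit_iff_coprime c W).mpr hcop) B
  have hqc : q ≡ c [MOD W] := (ZMod.natCast_eq_natCast_iff _ _ _).mp hq
  refine ⟨q, hqp, hqB, ?_, fun j => ⟨u j, ?_, hu0 j, hu j⟩⟩
  · exact (hqc.of_dvd (Dvd.intro _ rfl)).trans hc1
  · exact (hqc.of_dvd ((Finset.dvd_prod_of_mem p (Finset.mem_univ j)).trans
      (Dvd.intro_left _ rfl))).trans (hc2 j)

theorem t_T1 : S_T1 := by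
  intro k a J X₀ ha
  obtain ⟨p, hinj, hp⟩ := exists_primes k (2 + ∑ i, ∑ j, (a i - a j).natAbs)
  have hp1 : ∀ j, (p j).Prime := fun j => (hp j).1
  have hp2 : ∀ j, 2 < p j := fun j => by
    have := (hp j).2
    omega
  have hpa : ∀ i j l, (a i - a j).natAbs < p l := fun i j l => by
    have h1 : (a i - a j).natAbs ≤ ∑ j, (a i - a j).natAbs :=
      Finset.single_le_sum (f := fun j => (a i - a j).natAbs) (fun _ _ => Nat.zero_le _)
        (Finset.mem_univ j)
    have h2 : ∑ j, (a i - a j).natAbs ≤ ∑ i, ∑ j, (a i - a j).natAbs :=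
      Finset.single_le_sum (f := fun i => ∑ j, (a i - a j).natAbs) (fun _ _ => Nat.zero_le _)
        (Finset.mem_univ i)
    have := (hp l).2
    omega
  obtain ⟨x, hx0, hxa, hx⟩ := exists_x k a p hinj hp1 X₀
  have hm : ∀ j, ∃ m : ℕ, 0 < m ∧ x - a j = (p j : ℤ) * m ∧ ¬ p j ∣ m := by
    intro j
    obtain ⟨t, ht⟩ := hx j
    have h1 : x - a j = (p j : ℤ) * (1 + p j * t) := by linear_combination ht
    have hpj : (0 : ℤ) < p j := by exact_mod_cast (hp1 j).pos
    have h2 : 0 < 1 + (p j : ℤ) * t := by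
      have h3 : 0 < (p j : ℤ) * (1 + p j * t) := by
        rw [← h1]
        have := hxa j
        omega
      exact (pos_iff_pos_of_mul_pos h3).mp hpj
    refine ⟨(1 + (p j : ℤ) * t).toNat, by omega, ?_, ?_⟩
    · rw [Int.toNat_of_nonneg h2.le]
      exact h1
    · intro h
      have h4 : (p j : ℤ) ∣ 1 + (p j : ℤ) * t := by
        have h5 : (p j : ℤ) ∣ (((1 + (p j : ℤ) * t).toNat : ℕ) : ℤ) := by exact_mod_cast h
        rwa [Int.toNat_of_nonneg h2.le] at h5
      have h6 : (p j : ℤ) ∣ 1 := by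
        have h7 := dvd_sub h4 (Dvd.intro t rfl : (p j : ℤ) ∣ (p j : ℤ) * t)
        simpa using h7
      have h8 : p j ∣ 1 := by exact_mod_cast h6
      exact (hp1 j).one_lt.ne' (Nat.dvd_one.mp h8)
  choose m hm0 hm1 hm2 using hm
  refine ⟨x, hx0, fun B => ?_⟩
  have hpm : ∀ j, ¬ p j ∣ ∏ i, m i := by
    intro j h
    obtain ⟨i, _, hi⟩ := (Prime.dvd_finsetProd_iff (hp1 j).prime _).mp h
    by_cases hij : i = j
    · subst hij
      exact hm2 i hi
    · have h1 : (p j : ℤ) ∣ x - a i := by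
        rw [hm1 i]
        exact Dvd.dvd.mul_left (by exact_mod_cast hi) _
      have h2 : (p j : ℤ) ∣ x - a j := by
        rw [hm1 j]
        exact Dvd.intro _ rfl
      have h3 : (p j : ℤ) ∣ a i - a j := by
        have := dvd_sub h2 h1
        have h4 : x - a j - (x - a i) = a i - a j := by ring
        rwa [h4] at this
      have h5 : a i - a j = 0 :=
        Int.eq_zero_of_abs_lt_dvd h3 (by
          have := hpa i j j
          rw [Int.abs_eq_natAbs]
          exact_mod_cast this)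
      exact hij (ha (by omega))
  obtain ⟨q, hqp, hqB, hq1, hq⟩ := exists_q k p hinj hp1 hp2 J (∏ i, m i)
    (Finset.prod_pos fun i _ => hm0 i) hpm B
  haveI : Fact q.Prime := ⟨hqp⟩
  have hq4 : q % 4 = 1 := (hq1.of_dvd (Dvd.intro _ rfl))
  have hqodd : Odd q := Nat.odd_iff.mpr (by omega)
  have hmain : ∀ j, legendreSym q (x - a j) = if j ∈ J then -1 else 1 := by
    intro j
    haveI : Fact (p j).Prime := ⟨hp1 j⟩
    obtain ⟨u, hu1, hu2, hu3⟩ := hq j
    have hJm : J((m j : ℤ) | q) = 1 := by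
      rw [jacobiSym.mod_right _ hqodd]
      have h1 : q ≡ 1 [MOD (4 * (m j : ℤ).natAbs)] := by
        refine hq1.of_dvd ?_
        rw [Int.natAbs_natCast]
        exact Nat.mul_dvd_mul_left 4 (Finset.dvd_prod_of_mem m (Finset.mem_univ j))
      have h2 : q % (4 * (m j : ℤ).natAbs) = 1 := by
        rw [h1]
        refine Nat.mod_eq_of_lt ?_
        have := hm0 j
        rw [Int.natAbs_natCast]
        omega
      rw [h2, jacobiSym.one_right]
    have hJp : J((p j : ℤ) | q) = if j ∈ J then -1 else 1 := by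
      have hpodd : Odd (p j) := (hp1 j).odd_of_ne_two (by have := hp2 j; omega)
      rw [← jacobiSym.quadratic_reciprocity_one_mod_four hq4 hpodd,
        ← jacobiSym.legendreSym.to_jacobiSym]
      have hqu : ((q : ℤ) : ZMod (p j)) = (u : ZMod (p j)) := by
        rw [Int.cast_natCast]
        exact (ZMod.natCast_eq_natCast_iff _ _ _).mpr hu1
      split_ifs with h
      · rw [legendreSym.eq_neg_one_iff, hqu, hu3]
        exact fun h' => h' h
      · rw [legendreSym.eq_one_iff _ (by rw [hqu]; exact hu2), hqu, hu3]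
        exact h
    rw [jacobiSym.legendreSym.to_jacobiSym, hm1 j, jacobiSym.mul_left, hJm, hJp, mul_one]
  refine ⟨q, hqp, hqB, hq4, fun j => ?_⟩
  have h0 : ((x - a j : ℤ) : ZMod q) ≠ 0 := by
    intro h
    have h1 := (legendreSym.eq_zero_iff q (x - a j)).mpr h
    rw [hmain j] at h1
    split_ifs at h1 <;> omega
  refine ⟨h0, ?_⟩
  rw [← legendreSym.eq_one_iff q h0, hmain j]
  split_ifs with h
  · simp [h]
  · simp [h]

end Pool.Agent.J4H30.TR
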